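import Pool.Agent.Q124.ART.SHP

/-!
# ART-COR (project ART of helper145): the least prime
-/

set_option autoImplicit false

namespace Pool.Agent.Q124.ART

open Finset Filter Pool.Agent.Q145.ART

theorem num_mono {α : Type} (s : Finset α) (P Q : α → Prop) (h : ∀ a ∈ s, P a → Q a) :
    num s P ≤ num s Q := by
  classical
  rw [num_eq, num_eq]
  have : s.filter P ⊆ s.filter Q := by
    intro a ha
    rw [Finset.mem_filter] at ha ⊢
    exact ⟨ha.1, h a ha.1 ha.2⟩
  exact_mod_cast Finset.card_le_card this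

theorem ww_nonneg (p : ℕ) (t : ℤ) : 0 ≤ ww p t := by
  unfold ww
  split_ifs <;> positivity

theorem main_pos {n : ℕ} (t : Fin n → ℤ) (x : ℕ) (hx : 2 ≤ x) : 0 < main t x := by
  unfold main
  refine Finset.sum_pos' (fun p _ => Finset.prod_nonneg fun i _ => ww_nonneg p (t i)) ⟨2, ?_, ?_⟩
  · unfold PP
    rw [Finset.mem_filter, Finset.mem_range]
    exact ⟨by omega, Nat.prime_two⟩
  · refine Finset.prod_pos fun i _ => ?_
    unfold ww
    split_ifs <;> norm_num

theorem exists_of_cnt {n : ℕ} (t : Fin n → ℤ) (a : Fin n → ℕ) (x : ℕ) (h : 0 < cnt t a x) :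
    ∃ p ∈ PP x, ∀ i, Ty p (t i) (a i) := by
  classical
  unfold cnt at h
  rw [num_eq] at h
  have h1 : 0 < ((PP x).filter fun p => ∀ i, Ty p (t i) (a i)).card := by exact_mod_cast h
  obtain ⟨p, hp⟩ := Finset.card_pos.1 h1
  rw [Finset.mem_filter] at hp
  exact ⟨p, hp.1, hp.2⟩

theorem t_COR : S_COR := by
  intro hSV hLOW hALL hSHP ε hε hε1
  obtain ⟨C1, κ, hκ, -, hA⟩ := hALL 1 (ε / 4) one_pos (by positivity) (by linarith)
  obtain ⟨C2, hB⟩ := hSHP ε hε
  obtain ⟨M, hM⟩ : ∃ M : ℝ, M = max C2 ((1 / ε) ^ (2 / ε)) := ⟨_, rfl⟩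
  have hε' : 0 < 1 - ε := by linarith
  refine ⟨max (max (2 * |C1|) (8 / ε)) (2 * (M + 1) / (1 - ε)), κ, hκ, fun n N t hn ht => ⟨fun E hN hE hcard => ?_, fun hN => ?_⟩⟩
  · have hn1 : 2 * |C1| ≤ n := (le_max_left _ _).trans ((le_max_left _ _).trans hn)
    have hn2 : 8 / ε ≤ n := (le_max_right _ _).trans ((le_max_left _ _).trans hn)
    have hn8 : (8 : ℝ) ≤ n := by
      refine le_trans ?_ hn2
      rw [le_div_iff₀ hε]; linarith
    have hεn : 8 ≤ ε * n := by
      rw [div_le_iff₀ hε] at hn2; linarith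
    obtain ⟨x, hx⟩ : ∃ x : ℕ, x = ⌊(2 : ℝ) ^ ((1 + ε) * (n : ℝ))⌋₊ := ⟨_, rfl⟩
    have hxle : (x : ℝ) ≤ (2 : ℝ) ^ ((1 + ε) * (n : ℝ)) := by
      rw [hx]; exact Nat.floor_le (by positivity)
    have h2n : (2 : ℝ) ^ n ≤ (2 : ℝ) ^ ((1 + ε) * (n : ℝ)) := by
      rw [← Real.rpow_natCast]
      refine Real.rpow_le_rpow_of_exponent_le (by norm_num) ?_
      nlinarith
    have hx2n : 2 ^ n ≤ x := by
      rw [hx]
      refine Nat.le_floor ?_
      push_cast
      exact h2n
    have hnx : (n : ℝ) ≤ x := by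
      have h3 : n < 2 ^ n := Nat.lt_two_pow_self
      exact_mod_cast (h3.le.trans hx2n)
    have hxp : (0 : ℝ) < x := by linarith
    have hl2a : (0.69 : ℝ) ≤ Real.log 2 := by
      have := Real.log_two_gt_d9; linarith
    have hl2b : Real.log 2 ≤ 0.7 := by
      have := Real.log_two_lt_d9; linarith
    have hlx1 : Real.log x ≤ (1 + ε) * n * Real.log 2 := by
      have h3 := Real.log_le_log hxp hxle
      rwa [Real.log_rpow (by norm_num)] at h3
    have hlx2 : ((1 + ε) * n - 1) * Real.log 2 ≤ Real.log x := by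
      have h3 : (2 : ℝ) ^ ((1 + ε) * (n : ℝ)) / 2 ≤ x := by
        have h4 : (2 : ℝ) ^ ((1 + ε) * (n : ℝ)) < x + 1 := by
          rw [hx]; exact Nat.lt_floor_add_one _
        linarith
      have h5 := Real.log_le_log (by positivity) h3
      rw [Real.log_div (by positivity) (by norm_num), Real.log_rpow (by norm_num)] at h5
      linarith
    have hlxpos : 1 / ε < Real.log x := by
      refine lt_of_lt_of_le ?_ hlx2
      rw [div_lt_iff₀ hε]
      have h6 : 7 ≤ ((1 + ε) * n - 1) * ε := by nlinarith [mul_pos hε hε]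
      have h7 : 7 * Real.log 2 ≤ ((1 + ε) * n - 1) * ε * Real.log 2 :=
        mul_le_mul_of_nonneg_right h6 (by linarith)
      linarith
    have hlx1' : 1 < Real.log x := by
      refine lt_of_le_of_lt ?_ hlxpos
      rw [le_div_iff₀ hε]; linarith
    have hlogn : 0 ≤ Real.log n := Real.log_nonneg (by linarith)
    have hc1 : C1 ≤ x := by
      have := le_abs_self C1
      have := abs_nonneg C1
      linarith
    have hc2 : C1 * Real.sqrt (Real.log x * Real.log (Real.log x)) ≤ Real.log N := by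
      have h3 : Real.log x ≤ 2 * n := by nlinarith
      have h4 : Real.log (Real.log x) ≤ 2 * Real.log n := by
        have h5 := Real.log_le_log (by linarith) h3
        have h6 : Real.log (2 * (n : ℝ)) ≤ Real.log ((n : ℝ) ^ 2) :=
          Real.log_le_log (by linarith) (by nlinarith)
        rw [Real.log_pow] at h6
        push_cast at h6
        linarith
      have h5 : Real.log x * Real.log (Real.log x) ≤ 4 * (n * Real.log n) := by
        have h6 : 0 ≤ Real.log (Real.log x) := Real.log_nonneg hlx1'.le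
        nlinarith
      have h6 : Real.sqrt (Real.log x * Real.log (Real.log x)) ≤ 2 * Real.sqrt (n * Real.log n) := by
        have h7 := Real.sqrt_le_sqrt h5
        have h8 : Real.sqrt (4 * (n * Real.log n)) = 2 * Real.sqrt (n * Real.log n) := by
          rw [show (4 : ℝ) * (n * Real.log n) = 2 ^ 2 * (n * Real.log n) by norm_num,
            Real.sqrt_mul (by norm_num), Real.sqrt_sq (by norm_num)]
        rwa [h8] at h7
      have h7 : C1 * Real.sqrt (Real.log x * Real.log (Real.log x)) ≤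
          |C1| * (2 * Real.sqrt (n * Real.log n)) :=
        mul_le_mul (le_abs_self _) h6 (Real.sqrt_nonneg _) (abs_nonneg _)
      have h8 : 2 * |C1| * Real.sqrt (n * Real.log n) ≤
          max (max (2 * |C1|) (8 / ε)) (2 * (M + 1) / (1 - ε)) * Real.sqrt (n * Real.log n) :=
        mul_le_mul_of_nonneg_right ((le_max_left _ _).trans (le_max_left _ _)) (Real.sqrt_nonneg _)
      linarith
    have hc3 : (n : ℝ) * Real.log 2 ≤ (1 - ε / 4) * Real.log x := by
      have h3 : (1 - ε / 4) * (((1 + ε) * n - 1) * Real.log 2) ≤ (1 - ε / 4) * Real.log x :=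
        mul_le_mul_of_nonneg_left hlx2 (by linarith)
      refine le_trans ?_ h3
      have h4 : (n : ℝ) ≤ (1 - ε / 4) * ((1 + ε) * n - 1) := by nlinarith
      have h5 := mul_le_mul_of_nonneg_right h4 (by linarith : (0 : ℝ) ≤ Real.log 2)
      linarith
    have hc4 : ∀ i, (N : ℝ) ≤ ((E i).card : ℝ) * ((min N x : ℕ) : ℝ) ^ κ := by
      intro i
      refine (hcard i).trans (mul_le_mul_of_nonneg_left ?_ (Nat.cast_nonneg _))
      refine Real.rpow_le_rpow (Nat.cast_nonneg _) ?_ hκ.le
      exact_mod_cast min_le_min le_rfl hx2n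
    have h3 := hA x x N n E t hc1 hc2 hc3 hE hc4 ht
    have hprod : 0 ≤ ∏ i, ((E i).card : ℝ) := Finset.prod_nonneg fun i _ => Nat.cast_nonneg _
    refine (num_mono _ _ _ ?_).trans (h3.trans ?_)
    · intro a _ hno
      refine ⟨x, le_rfl, le_rfl, ?_⟩
      by_contra hcon
      push Not at hcon
      rw [Real.rpow_one] at hcon
      have hm : 0 < main t x := main_pos t x (by
        have : (2 : ℝ) ≤ x := by linarith
        exact_mod_cast this)
      have h4 : main t x / Real.log x < main t x := by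
        rw [div_lt_iff₀ (by linarith)]
        nlinarith
      have h5 : 0 < cnt t a x := by
        have := (abs_le.1 hcon).1
        linarith
      obtain ⟨p, hp, hpa⟩ := exists_of_cnt t a x h5
      unfold PP at hp
      rw [Finset.mem_filter, Finset.mem_range] at hp
      refine hno ⟨p, hp.2, ?_, hpa⟩
      refine le_trans ?_ hxle
      exact_mod_cast (by omega : p ≤ x)
    · rw [Real.rpow_one, div_le_iff₀ (by linarith)]
      have h4 : 1 ≤ ε * Real.log x := by
        rw [div_lt_iff₀ hε] at hlxpos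
        linarith
      nlinarith
  · have hn2 : 2 * (M + 1) / (1 - ε) ≤ n := (le_max_right _ _).trans hn
    obtain ⟨x, hx⟩ : ∃ x : ℕ, x = ⌊(2 : ℝ) ^ ((1 - ε) * (n : ℝ))⌋₊ := ⟨_, rfl⟩
    have hxle : (x : ℝ) ≤ (2 : ℝ) ^ ((1 - ε) * (n : ℝ)) := by
      rw [hx]; exact Nat.floor_le (by positivity)
    have hxM : M ≤ x := by
      have h4 : (2 : ℝ) ^ ((1 - ε) * (n : ℝ)) < x + 1 := by
        rw [hx]; exact Nat.lt_floor_add_one _
      rw [Real.rpow_def_of_pos (by norm_num)] at h4
      have h5 := Real.add_one_le_exp (Real.log 2 * ((1 - ε) * (n : ℝ)))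
      have hl2a : (1 / 2 : ℝ) ≤ Real.log 2 := by
        have := Real.log_two_gt_d9; linarith
      have h6 : M + 1 ≤ (1 / 2) * ((1 - ε) * (n : ℝ)) := by
        rw [div_le_iff₀ hε'] at hn2
        linarith
      have h7 : (1 / 2) * ((1 - ε) * (n : ℝ)) ≤ Real.log 2 * ((1 - ε) * (n : ℝ)) :=
        mul_le_mul_of_nonneg_right hl2a (by positivity)
      linarith
    have hMp : 0 < M := by
      rw [hM]
      exact lt_of_lt_of_le (by positivity) (le_max_right _ _)
    have hxp : (0 : ℝ) < x := lt_of_lt_of_le hMp hxM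
    have hC2 : C2 ≤ x := by
      refine le_trans ?_ hxM
      rw [hM]; exact le_max_left _ _
    have hx4 : (x : ℝ) ^ 2 ≤ N := by
      have h3 : (x : ℝ) ≤ 2 ^ n := by
        refine hxle.trans ?_
        rw [← Real.rpow_natCast]
        refine Real.rpow_le_rpow_of_exponent_le (by norm_num) ?_
        nlinarith [Nat.cast_nonneg (α := ℝ) n]
      calc (x : ℝ) ^ 2 ≤ (2 ^ n) ^ 2 := pow_le_pow_left₀ hxp.le h3 2
        _ = 4 ^ n := by rw [← pow_mul, mul_comm, pow_mul]; norm_num
        _ ≤ N := by exact_mod_cast hN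
    have hlog : (1 + ε) * Real.log x ≤ (n : ℝ) * Real.log 2 := by
      have h3 := Real.log_le_log hxp hxle
      rw [Real.log_rpow (by norm_num)] at h3
      have h4 := mul_le_mul_of_nonneg_left h3 (by linarith : (0 : ℝ) ≤ 1 + ε)
      have h5 : 0 ≤ (n : ℝ) * Real.log 2 := by
        have : 0 ≤ Real.log 2 := Real.log_nonneg (by norm_num)
        positivity
      nlinarith [sq_nonneg ε, mul_nonneg (sq_nonneg ε) h5]
    have h3 := hB x N n t hC2 hx4 hlog ht
    refine (num_mono _ _ _ ?_).trans (h3.trans ?_)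
    · rintro a - ⟨p, hp, hpx, hpa⟩
      refine ⟨p, ?_, hpa⟩
      unfold PP
      rw [Finset.mem_filter, Finset.mem_range]
      refine ⟨?_, hp⟩
      have : p ≤ x := by
        rw [hx]; exact Nat.le_floor hpx
      omega
    · rw [mul_comm]
      refine mul_le_mul_of_nonneg_right ?_ (by positivity)
      rw [Real.rpow_neg hxp.le]
      refine inv_le_of_inv_le₀ hε ?_
      have h4 : (1 / ε) ^ (2 / ε) ≤ (x : ℝ) := by
        refine le_trans ?_ hxM
        rw [hM]; exact le_max_right _ _
      have h5 := Real.rpow_le_rpow (by positivity) h4 (by positivity : (0 : ℝ) ≤ ε / 2)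
      rw [← Real.rpow_mul (by positivity), show 2 / ε * (ε / 2) = 1 by field_simp, Real.rpow_one] at h5
      rwa [one_div] at h5

end Pool.Agent.Q124.ART
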