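import Pool.Agent.Q145.ART.Stm

/-!
# ART-SHP (project ART of helper145): sharpness
-/

set_option autoImplicit false

namespace Pool.Agent.Q124.ART

open Finset Filter Pool.Agent.Q145.ART

theorem zmod2 : ∀ u : ZMod 2, u ≠ 0 → u = 1 := by decide

theorem num_eq {α : Type} (s : Finset α) (P : α → Prop) [DecidablePred P] :
    num s P = ((s.filter P).card : ℝ) := by
  unfold num
  rw [Finset.filter_congr_decidable]

/-- the residues of a given type -/
theorem classes (p : ℕ) (hp : p.Prime) (t : ℤ) (ht : IsT t) :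
    ∃ S : Finset (ZMod p), 2 * S.card ≤ p ∧ ∀ a : ℕ, Ty p t a → (a : ZMod p) ∈ S := by
  classical
  have : Fact p.Prime := ⟨hp⟩
  rcases hp.eq_two_or_odd' with h2 | hodd
  · subst h2
    refine ⟨{1}, by simp, fun a ha => ?_⟩
    rw [Finset.mem_singleton]
    unfold Ty at ha
    split_ifs at ha with h0
    · exact orderOf_eq_one_iff.1 (by simpa using ha)
    · have h1 : (a : ZMod 2) ≠ 0 := by
        intro h
        have h3 : jacobiSym (a : ℤ) 2 = 0 := by
          rw [← jacobiSym.legendreSym.to_jacobiSym 2 (a : ℤ), legendreSym.eq_zero_iff]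
          exact_mod_cast h
        rw [h3] at ha
        exact h0 ha.symm
      exact zmod2 _ h1
  · have hne : p ≠ 2 := by
      rintro rfl
      exact absurd hodd (by decide)
    have hp3 : 3 ≤ p := by
      have := hp.two_le
      omega
    have hchar : ringChar (ZMod p) ≠ 2 := by rwa [ZMod.ringChar_zmod_n]
    have hcard : ∀ e : ℤ, e = 1 ∨ e = -1 →
        2 * ((univ.filter fun u : ZMod p => quadraticChar (ZMod p) u = e).card : ℤ) = p - 1 := by
      intro e he
      have h1 : ∀ u : ZMod p, (if quadraticChar (ZMod p) u = e then (2 : ℤ) else 0) =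
          (if u = 0 then 0 else 1) + e * quadraticChar (ZMod p) u := by
        intro u
        by_cases hu : u = 0
        · subst hu
          rcases he with rfl | rfl <;> simp
        · rw [if_neg hu]
          rcases quadraticChar_dichotomy hu with h | h <;> rw [h] <;>
            rcases he with rfl | rfl <;> norm_num
      have h2 : (2 : ℤ) * ((univ.filter fun u : ZMod p => quadraticChar (ZMod p) u = e).card : ℤ) =
          ∑ u : ZMod p, (if quadraticChar (ZMod p) u = e then (2 : ℤ) else 0) := by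
        rw [← Finset.sum_filter, Finset.sum_const, nsmul_eq_mul, mul_comm]
      rw [h2, Finset.sum_congr rfl fun u _ => h1 u, Finset.sum_add_distrib, ← Finset.mul_sum,
        quadraticChar_sum_zero hchar, mul_zero, add_zero]
      have h3 : ∑ u : ZMod p, (if u = 0 then (0 : ℤ) else 1) =
          ∑ u : ZMod p, ((1 : ℤ) - if u = 0 then 1 else 0) :=
        Finset.sum_congr rfl fun u _ => by split_ifs <;> simp
      rw [h3, Finset.sum_sub_distrib]
      simp [ZMod.card]
    have hres : ∀ e : ℤ, e = 1 ∨ e = -1 →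
        2 * (univ.filter fun u : ZMod p => quadraticChar (ZMod p) u = e).card ≤ p := by
      intro e he
      have := hcard e he
      omega
    unfold IsT at ht
    rcases ht with rfl | ht
    · refine ⟨_, hres (-1) (Or.inr rfl), fun a ha => ?_⟩
      unfold Ty at ha
      rw [if_pos rfl] at ha
      rw [Finset.mem_filter]
      refine ⟨Finset.mem_univ _, ?_⟩
      rw [quadraticChar_neg_one_iff_not_isSquare]
      rintro ⟨v, hv⟩
      by_cases hv0 : v = 0
      · rw [hv, hv0, mul_zero, orderOf_zero] at ha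
        omega
      · have h1 : (a : ZMod p) ^ ((p - 1) / 2) = 1 := by
          rw [hv, ← pow_two, ← pow_mul, Nat.mul_div_cancel' (by obtain ⟨r, hr⟩ := hodd; exact ⟨r, by omega⟩)]
          exact ZMod.pow_card_sub_one_eq_one hv0
        have h2 := orderOf_dvd_of_pow_eq_one h1
        rw [ha] at h2
        have h3 := Nat.le_of_dvd (by omega) h2
        omega
    · refine ⟨_, hres t ht, fun a ha => ?_⟩
      have ht0 : t ≠ 0 := by rcases ht with rfl | rfl <;> norm_num
      unfold Ty at ha
      rw [if_neg ht0] at ha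
      rw [Finset.mem_filter]
      refine ⟨Finset.mem_univ _, ?_⟩
      rw [← jacobiSym.legendreSym.to_jacobiSym p (a : ℤ)] at ha
      rw [← ha]
      unfold legendreSym
      norm_cast

theorem fibre_card (p N : ℕ) (s : ZMod p) :
    ((Icc 1 N).filter fun a : ℕ => (a : ZMod p) = s).card ≤ N / p + 1 := by
  have h1 : ((Icc 1 N).filter fun a : ℕ => (a : ZMod p) = s).card ≤ (range (N / p + 1)).card := by
    refine Finset.card_le_card_of_injOn (fun a => a / p) ?_ ?_
    · intro a ha
      simp only [Finset.coe_filter, Finset.mem_Icc, Set.mem_ofPred_eq] at ha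
      simp only [Finset.coe_range, Set.mem_Iio]
      have := Nat.div_le_div_right (c := p) ha.1.2
      omega
    · intro a ha b hb hab
      simp only [Finset.coe_filter, Finset.mem_Icc, Set.mem_ofPred_eq] at ha hb
      have h2 : (a : ZMod p) = (b : ZMod p) := ha.2.trans hb.2.symm
      rw [ZMod.natCast_eq_natCast_iff] at h2
      have h3 : a % p = b % p := h2
      have h4 : a / p = b / p := hab
      rw [← Nat.div_add_mod a p, ← Nat.div_add_mod b p, h3, h4]
  rwa [Finset.card_range] at h1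

/-- the elements of `[1, N]` of a given type -/
theorem nT_le (p N : ℕ) (hp : p.Prime) (t : ℤ) (ht : IsT t) :
    num (Icc 1 N) (fun a => Ty p t a) ≤ ((N : ℝ) + p) / 2 := by
  classical
  obtain ⟨S, hS, hSa⟩ := classes p hp t ht
  have h1 : ((Icc 1 N).filter fun a => Ty p t a).card ≤ S.card * (N / p + 1) := by
    have h2 : (Icc 1 N).filter (fun a => Ty p t a) ⊆
        S.biUnion fun s => (Icc 1 N).filter fun a : ℕ => (a : ZMod p) = s := by
      intro a ha
      rw [Finset.mem_filter] at ha
      rw [Finset.mem_biUnion]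
      exact ⟨_, hSa a ha.2, Finset.mem_filter.2 ⟨ha.1, rfl⟩⟩
    refine (Finset.card_le_card h2).trans (Finset.card_biUnion_le.trans ?_)
    calc ∑ s ∈ S, ((Icc 1 N).filter fun a : ℕ => (a : ZMod p) = s).card
        ≤ ∑ _s ∈ S, (N / p + 1) := Finset.sum_le_sum fun s _ => fibre_card p N s
      _ = S.card * (N / p + 1) := by rw [Finset.sum_const, smul_eq_mul]
  have hpp : (0 : ℝ) < p := by exact_mod_cast hp.pos
  have h3 : num (Icc 1 N) (fun a => Ty p t a) ≤ (S.card : ℝ) * ((N / p : ℕ) + 1) := by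
    rw [num_eq]
    exact_mod_cast h1
  have h4 : ((N / p : ℕ) : ℝ) ≤ (N : ℝ) / p := Nat.cast_div_le
  have h5 : (S.card : ℝ) ≤ (p : ℝ) / 2 := by
    have : ((2 * S.card : ℕ) : ℝ) ≤ p := by exact_mod_cast hS
    push_cast at this
    linarith
  calc num (Icc 1 N) (fun a => Ty p t a) ≤ (S.card : ℝ) * ((N / p : ℕ) + 1) := h3
    _ ≤ ((p : ℝ) / 2) * ((N : ℝ) / p + 1) := by gcongr
    _ = ((N : ℝ) + p) / 2 := by field_simp

theorem PP_card (x : ℕ) : (PP x).card ≤ x := by
  have h : PP x ⊆ Icc 1 x := by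
    intro p hp
    unfold PP at hp
    rw [Finset.mem_filter, Finset.mem_range] at hp
    rw [Finset.mem_Icc]
    exact ⟨hp.2.one_lt.le, by omega⟩
  have := Finset.card_le_card h
  simpa using this

theorem num_nonneg {α : Type} (s : Finset α) (P : α → Prop) : 0 ≤ num s P := by
  unfold num
  positivity

theorem num_le {n : ℕ} (x N : ℕ) (t : Fin n → ℤ) (ht : ∀ i, IsT (t i)) :
    num (Fintype.piFinset (fun _ : Fin n => Icc 1 N)) (fun a : Fin n → ℕ => ∃ p ∈ PP x, ∀ i, Ty p (t i) (a i)) ≤
      x * (((N : ℝ) + x) / 2) ^ n := by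
  classical
  rw [num_eq]
  have h1 : (Fintype.piFinset (fun _ : Fin n => Icc 1 N)).filter
      (fun a : Fin n → ℕ => ∃ p ∈ PP x, ∀ i, Ty p (t i) (a i)) ⊆
      (PP x).biUnion fun p => Fintype.piFinset fun i : Fin n => (Icc 1 N).filter fun a => Ty p (t i) a := by
    intro a ha
    rw [Finset.mem_filter] at ha
    obtain ⟨ha1, p, hp, hpa⟩ := ha
    rw [Finset.mem_biUnion]
    refine ⟨p, hp, Fintype.mem_piFinset.2 fun i => Finset.mem_filter.2 ⟨?_, hpa i⟩⟩
    exact Fintype.mem_piFinset.1 ha1 i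
  have h2 : ∀ p ∈ PP x, ((Fintype.piFinset fun i : Fin n => (Icc 1 N).filter fun a => Ty p (t i) a).card : ℝ) ≤
      (((N : ℝ) + x) / 2) ^ n := by
    intro p hp
    unfold PP at hp
    rw [Finset.mem_filter, Finset.mem_range] at hp
    rw [Fintype.card_piFinset]
    push_cast
    have h3 : ∀ i ∈ (Finset.univ : Finset (Fin n)),
        (((Icc 1 N).filter fun a => Ty p (t i) a).card : ℝ) ≤ ((N : ℝ) + x) / 2 := by
      intro i _
      have h4 := nT_le p N hp.2 (t i) (ht i)
      rw [num_eq] at h4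
      have h5 : (p : ℝ) ≤ x := by exact_mod_cast (by omega : p ≤ x)
      linarith
    refine (Finset.prod_le_prod (fun i _ => Nat.cast_nonneg _) h3).trans (le_of_eq ?_)
    rw [Finset.prod_const, Finset.card_univ, Fintype.card_fin]
  have h3 : ((((PP x).biUnion fun p => Fintype.piFinset fun i : Fin n =>
      (Icc 1 N).filter fun a => Ty p (t i) a).card : ℕ) : ℝ) ≤ x * (((N : ℝ) + x) / 2) ^ n := by
    have h4 : ((((PP x).biUnion fun p => Fintype.piFinset fun i : Fin n =>
        (Icc 1 N).filter fun a => Ty p (t i) a).card : ℕ) : ℝ) ≤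
        ∑ p ∈ PP x, ((Fintype.piFinset fun i : Fin n => (Icc 1 N).filter fun a => Ty p (t i) a).card : ℝ) := by
      exact_mod_cast Finset.card_biUnion_le
    refine h4.trans ((Finset.sum_le_sum h2).trans ?_)
    rw [Finset.sum_const, nsmul_eq_mul]
    refine mul_le_mul_of_nonneg_right ?_ (by positivity)
    exact_mod_cast PP_card x
  exact le_trans (by exact_mod_cast Finset.card_le_card h1) h3

theorem t_SHP : S_SHP := by
  intro δ hδ
  refine ⟨max 2 (4 * (1 + δ) / δ), fun x N n t hx hN hn ht => ?_⟩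
  have hx2 : (2 : ℝ) ≤ x := (le_max_left _ _).trans hx
  have hx4 : 4 * (1 + δ) / δ ≤ x := (le_max_right _ _).trans hx
  have hxp : (0 : ℝ) < x := by linarith
  have hNp : (0 : ℝ) < N := lt_of_lt_of_le (by positivity) hN
  refine (num_le x N t ht).trans ?_
  have h1 : ((N : ℝ) + x) / 2 ≤ N * Real.exp (1 / x - Real.log 2) := by
    rw [Real.exp_sub, Real.exp_log (by norm_num)]
    have h2 := Real.add_one_le_exp (1 / (x : ℝ))
    have h3 : (x : ℝ) ≤ N * (1 / x) := by
      rw [mul_one_div, le_div_iff₀ hxp]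
      nlinarith
    have h4 : (N : ℝ) * (1 / x + 1) ≤ N * Real.exp (1 / x) := mul_le_mul_of_nonneg_left h2 hNp.le
    rw [mul_div_assoc']
    linarith
  have h2 : (((N : ℝ) + x) / 2) ^ n ≤ (N : ℝ) ^ n * Real.exp (n * (1 / x - Real.log 2)) := by
    calc (((N : ℝ) + x) / 2) ^ n ≤ (N * Real.exp (1 / x - Real.log 2)) ^ n :=
          pow_le_pow_left₀ (by positivity) h1 n
      _ = (N : ℝ) ^ n * Real.exp (n * (1 / x - Real.log 2)) := by
          rw [mul_pow, ← Real.exp_nat_mul]
  have hl2 : (1 : ℝ) / 2 ≤ Real.log 2 := by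
    have := Real.log_two_gt_d9
    linarith
  have hlx : 0 ≤ Real.log x := Real.log_nonneg (by linarith)
  have h3 : (n : ℝ) * (1 / x - Real.log 2) ≤ -((1 + δ) * (1 - 2 / x)) * Real.log x := by
    have h4 : (1 : ℝ) / x ≤ Real.log 2 * (2 / x) := by
      rw [mul_div_assoc', div_le_div_iff_of_pos_right hxp]
      linarith
    have h5 : (n : ℝ) * (1 / x - Real.log 2) ≤ -(n * Real.log 2 * (1 - 2 / x)) := by
      have h6 := mul_le_mul_of_nonneg_left h4 (Nat.cast_nonneg (α := ℝ) n)
      nlinarith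
    have h7 : 0 ≤ 1 - 2 / (x : ℝ) := by
      rw [sub_nonneg, div_le_one hxp]
      exact hx2
    have h8 := mul_le_mul_of_nonneg_right hn h7
    linarith
  have h4 : (1 + δ) * (2 / x) ≤ δ / 2 := by
    rw [div_le_iff₀ hδ] at hx4
    rw [mul_div_assoc', div_le_div_iff₀ hxp (by norm_num)]
    nlinarith
  calc (x : ℝ) * (((N : ℝ) + x) / 2) ^ n
      ≤ x * ((N : ℝ) ^ n * Real.exp (n * (1 / x - Real.log 2))) := mul_le_mul_of_nonneg_left h2 hxp.le
    _ ≤ x * ((N : ℝ) ^ n * Real.exp (-((1 + δ) * (1 - 2 / x)) * Real.log x)) := by gcongr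
    _ = (N : ℝ) ^ n * (x : ℝ) ^ (1 + -((1 + δ) * (1 - 2 / x))) := by
        rw [Real.rpow_add hxp, Real.rpow_one, Real.rpow_def_of_pos hxp (-((1 + δ) * (1 - 2 / (x : ℝ)))),
          mul_comm (Real.log (x : ℝ))]
        ring
    _ ≤ (N : ℝ) ^ n * (x : ℝ) ^ (-(δ / 2)) := by
        refine mul_le_mul_of_nonneg_left ?_ (by positivity)
        refine Real.rpow_le_rpow_of_exponent_le (by linarith) ?_
        nlinarith

end Pool.Agent.Q124.ART
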